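import Mathlib
import Pool.Agent.X6.ProdInt

/-!
# MP_57f2ab_co, Q1: every set of positive integers containing 1 is a product intersection set

There is one countable commutative semigroup `S` such that, for every infinite index set `Q`, the
collection `H_Q(S)` consists of all sets of positive integers containing `1`. So the answer to Q1
is no, for every infinite `Q`.
-/

namespace Pool.Agent.Results.MP_57f2ab_co.AllRealisedQ

open Pool.Agent.X6.ProdInt

universe u v

/-- The collection `H_Q(S)` of all `H(A_q)`, where `(A_q)_{q ∈ Q}` ranges over the families of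
subsets of the semigroup `S` for which the collection of sets `{A_q : q ∈ Q}` is infinite. -/
def HQ (Q : Type v) (S : Type u) [Semigroup S] : Set (Set ℕ) :=
  {X | ∃ A : Q → Set S, (Set.range A).Infinite ∧ prodIntSet A = X}

/-- There is a countable commutative semigroup `S` such that, for every infinite index set `Q`,
`H_Q(S)` is the collection of all sets of positive integers that contain `1`. -/
theorem result :
    ∃ (S : Type u) (_ : CommSemigroup S), Countable S ∧
      ∀ (Q : Type v), Infinite Q → HQ Q S = {X : Set ℕ | 0 ∉ X ∧ 1 ∈ X} := by
  obtain ⟨S, inst, hc, hS⟩ := exists_universal.{u, v}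
  refine ⟨S, inst, hc, ?_⟩
  intro Q hQ
  ext X
  constructor
  · rintro ⟨A, -, rfl⟩
    exact ⟨zero_notMem_prodIntSet A, one_mem_prodIntSet A⟩
  · rintro ⟨h0, h1⟩
    obtain ⟨B, -, hB, hH⟩ := hS X h1 h0
    obtain ⟨f, hf⟩ : ∃ f : Q → ℕ, Function.Surjective f :=
      ⟨_, (Function.leftInverse_invFun (Infinite.natEmbedding Q).injective).surjective⟩
    refine ⟨fun q => B (f q), ?_, hH Q f hf⟩
    have : Set.range (fun q => B (f q)) = Set.range B := by
      have := hf.range_comp B
      exact this
    rw [this]
    exact Set.infinite_range_of_injective hB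

end Pool.Agent.Results.MP_57f2ab_co.AllRealisedQ
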